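import Pool.Agent.Helper41.OA.Defs

set_option autoImplicit false
set_option linter.unusedVariables false

/-!
# Project OA: statements of the pieces
-/

namespace Pool.Agent.Helper41.OA.St

open Finset
open Pool.Agent.Helper41.OA

/-- OA-1. Taylor coefficients are unique. -/
theorem taylor_unique {a b : ℕ → ℂ} {φ : ℂ → ℂ} (ha : HasTaylor a φ) (hb : HasTaylor b φ) :
    a = b := by
  sorry

/-- OA-2. `α` satisfies the row condition: if `j ≤ i` and `i + j = NN d k + 2 ^ a` then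
`NN d k ≤ 2 * i` and `i ≤ NN d k + DD d`, which determines `k`. -/
theorem row_sq (d : ℕ) (hd : 0 < d) : RowSq (al d) := by
  sorry

/-- OA-3. `α` is bounded on `𝓛`. -/
theorem pairing_L {α : ℕ → ℂ} (hα : RowSq α) {φ : ℂ → ℂ} {c : ℕ → ℂ} (hc : HasTaylor c φ)
    (M : ℕ) : ENNReal.ofReal ‖∑ n ∈ range M, α n * c n‖ ≤ 192 * normL φ := by
  sorry

/-- OA-4. Paley's inequality for sequences with `n (k + 1) > 2 n k`. -/
theorem paley {g : ℂ → ℂ} {b : ℕ → ℂ} (hb : HasTaylor b g) {A : ℝ}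
    (hA : ∀ r : ℝ, 0 < r → r < 1 → Real.circleAverage (fun z => ‖g z‖) 0 r ≤ A) (m : ℕ)
    (n : ℕ → ℕ) (hn : ∀ k, k + 1 < m → 2 * n k < n (k + 1)) :
    ∑ k ∈ range m, ‖b (n k)‖ ^ 2 ≤ 16 * A ^ 2 := by
  sorry

/-- OA-5. One Hadamard product. -/
theorem pairing_one (d : ℕ) (hd : 0 < d) (F : C(UnitAddCircle, ℂ)) {g : ℂ → ℂ} {b : ℕ → ℂ}
    (hb : HasTaylor b g) {A : ℝ}
    (hA : ∀ r : ℝ, 0 < r → r < 1 → Real.circleAverage (fun z => ‖g z‖) 0 r ≤ A) (M : ℕ) :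
    ‖∑ n ∈ range M, al d n * (fourierCoeff F n * b n)‖ ≤ 4 * ‖F‖ * A := by
  sorry

/-- OA-6. `α` is bounded on `VMO_A ⊗̂ H¹` (uses OA-1, OA-5). -/
theorem pairing_VH (d : ℕ) (hd : 0 < d) {φ : ℂ → ℂ} {c : ℕ → ℂ} (hc : HasTaylor c φ)
    (M : ℕ) : ENNReal.ofReal ‖∑ n ∈ range M, al d n * c n‖ ≤ 4 * normVH φ := by
  sorry

/-- OA-7. The test polynomial at a power bounded operator. -/
theorem op_bound.{u} (d : ℕ) {H : Type u} [NormedAddCommGroup H] [InnerProductSpace ℂ H]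
    [CompleteSpace H] (T : H →L[ℂ] H) (C : ℝ) (hT : ∀ n : ℕ, ‖T ^ n‖ ≤ C) :
    ‖Polynomial.aeval T (Ph d)‖ ≤ C ^ 3 := by
  sorry

/-- OA-8. The pattern. -/
theorem pat_spec (d j : ℕ) : pat d j < 2 ^ d ∧ ∀ a < d,
    ((pat d j).testBit a = true ↔ 0 ≤ (rt (DD d) ^ (j * 2 ^ a)).re) := by
  sorry

/-- OA-9. The pairing of the test polynomial with `α` (uses OA-8). -/
theorem pairing_ge (d : ℕ) (hd : 0 < d) : ∃ M : ℕ, (∀ n, M ≤ n → (Ph d).coeff n = 0) ∧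
    √(d : ℝ) / 4 ≤ ‖∑ n ∈ range M, al d n * (Ph d).coeff n‖ := by
  sorry

/-- OA-10. -/
theorem coeff_zero (d : ℕ) : (Ph d).coeff 0 = 0 := by
  sorry

/-- OA-11. -/
theorem normL_poly (p : Polynomial ℂ) : normL (fun z => p.eval z) < ⊤ := by
  sorry

/-- OA-12. -/
theorem normL_pow (n : ℕ) : normL (fun z => z ^ n) ≤ 1 := by
  sorry

/-- OA-13. -/
theorem normVH_poly (p : Polynomial ℂ) : normVH (fun z => p.eval z) < ⊤ := by
  sorry

/-- OA-14. -/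
theorem normVH_pow (n : ℕ) : normVH (fun z => z ^ n) ≤ 1 := by
  sorry

end Pool.Agent.Helper41.OA.St
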